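import Pool.Agent.H740.Surf.Defs

set_option autoImplicit false

open Set Topology Filter

namespace Pool.Agent.H740.Surf

/-- The circle `ℝ/ℤ`. -/
abbrev S1 : Type := AddCircle (1 : ℝ)

/-- The torus. -/
abbrev T2 : Type := S1 × S1

/-- The covering of the torus by the plane. -/
def c (p : ℝ × ℝ) : T2 := ((p.1 : S1), (p.2 : S1))

theorem continuous_c : Continuous c :=
  ((AddCircle.continuous_mk' 1).comp continuous_fst).prodMk
    ((AddCircle.continuous_mk' 1).comp continuous_snd)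

theorem coe_eq_coe_iff {a b : ℝ} : (a : S1) = (b : S1) ↔ ∃ n : ℤ, a - b = n := by
  rw [← sub_eq_zero, ← AddCircle.coe_sub, AddCircle.coe_eq_zero_iff]
  constructor
  · rintro ⟨n, hn⟩; exact ⟨n, by rw [← hn]; simp⟩
  · rintro ⟨n, hn⟩; exact ⟨n, by rw [hn]; simp⟩

theorem norm_coe_of_le {t : ℝ} (h : |t| ≤ 1 / 2) : ‖(t : S1)‖ = |t| :=
  (AddCircle.norm_coe_eq_abs_iff (1 : ℝ) one_ne_zero).2 (by simpa using h)

theorem norm_coe_unit {v : ℝ} (h0 : 0 ≤ v) (h1 : v ≤ 1) : ‖(v : S1)‖ = min v (1 - v) := by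
  rcases le_total v (1 / 2) with h | h
  · rw [norm_coe_of_le (by rw [abs_of_nonneg h0]; exact h), abs_of_nonneg h0,
      min_eq_left (by linarith)]
  · have : (v : S1) = ((v - 1 : ℝ) : S1) := coe_eq_coe_iff.2 ⟨1, by norm_num⟩
    rw [this, norm_coe_of_le (by rw [abs_of_nonpos (by linarith)]; linarith),
      abs_of_nonpos (by linarith), min_eq_right (by linarith)]
    ring

/-- The depth function: it vanishes on the thick part of the compactum and equals `1/m` on the
`m`-th arc. -/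
noncomputable def F (p : T2) : ℝ := min (max 0 (1 / 4 - ‖p.1 - ((1 / 4 : ℝ) : S1)‖)) ‖p.2‖

theorem continuous_F : Continuous F := by
  unfold F
  fun_prop

theorem F_c {u v : ℝ} (hu0 : 0 ≤ u) (hu1 : u ≤ 1) (hv0 : 0 ≤ v) (hv1 : v ≤ 1) :
    F (c (u, v)) = min (max 0 (min u (1 / 2 - u))) (min v (1 - v)) := by
  unfold F c
  simp only
  rw [norm_coe_unit hv0 hv1, ← AddCircle.coe_sub]
  congr 1
  rcases le_total u (3 / 4) with h | h
  · rw [norm_coe_of_le (abs_le.2 ⟨by linarith, by linarith⟩)]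
    congr 1
    rcases le_total u (1 / 4) with h' | h'
    · rw [abs_of_nonpos (by linarith), min_eq_left (by linarith)]; ring
    · rw [abs_of_nonneg (by linarith), min_eq_right (by linarith)]; ring
  · have e : ((u - 1 / 4 : ℝ) : S1) = ((u - 5 / 4 : ℝ) : S1) := coe_eq_coe_iff.2 ⟨1, by norm_num⟩
    rw [e, norm_coe_of_le (abs_le.2 ⟨by linarith, by linarith⟩), abs_of_nonpos (by linarith),
      max_eq_left (by linarith), max_eq_left]
    exact (min_le_right _ _).trans (by linarith)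

/-- The values of the depth function on the compactum. -/
def Zs : Set ℝ := insert 0 (range fun m : ℕ => 1 / ((m : ℝ) + 8))

theorem isClosed_Zs : IsClosed Zs := by
  have h : Tendsto (fun m : ℕ => 1 / ((m : ℝ) + 8)) atTop (𝓝 0) := by
    have h8 : Tendsto (fun m : ℕ => (m : ℝ) + 8) atTop atTop :=
      tendsto_atTop_add_const_right _ _ tendsto_natCast_atTop_atTop
    simpa [Function.comp_def, Pi.inv_def] using h8.inv_tendsto_atTop
  exact h.isCompact_insert_range.isClosed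

/-- The compactum in the square. -/
def L : Set (ℝ × ℝ) :=
  {p | (0 ≤ p.1 ∧ p.1 ≤ 1 ∧ 0 ≤ p.2 ∧ p.2 ≤ 1) ∧
    (3 / 4 ≤ p.1 ∨ (p.2 = 0 ∨ p.2 = 1) ∨
      (p.1 ≤ 1 / 2 ∧ (p.1 ≤ 1 / 4 ∨ (p.2 ≤ 1 / 4 ∨ 3 / 4 ≤ p.2)) ∧
        min (min p.1 (1 / 2 - p.1)) (min p.2 (1 - p.2)) ∈ Zs))}

theorem isCompact_L : IsCompact L := by
  have h1 : IsCompact (Icc (0 : ℝ) 1 ×ˢ Icc (0 : ℝ) 1) := isCompact_Icc.prod isCompact_Icc
  refine h1.of_isClosed_subset ?_ ?_
  · unfold L
    simp only [Set.ofPred_and, Set.ofPred_or]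
    have a1 : IsClosed {p : ℝ × ℝ | 0 ≤ p.1} := isClosed_le continuous_const continuous_fst
    have a2 : IsClosed {p : ℝ × ℝ | p.1 ≤ 1} := isClosed_le continuous_fst continuous_const
    have a3 : IsClosed {p : ℝ × ℝ | 0 ≤ p.2} := isClosed_le continuous_const continuous_snd
    have a4 : IsClosed {p : ℝ × ℝ | p.2 ≤ 1} := isClosed_le continuous_snd continuous_const
    have a5 : IsClosed {p : ℝ × ℝ | 3 / 4 ≤ p.1} := isClosed_le continuous_const continuous_fst
    have a6 : IsClosed {p : ℝ × ℝ | p.2 = 0} := isClosed_eq continuous_snd continuous_const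
    have a7 : IsClosed {p : ℝ × ℝ | p.2 = 1} := isClosed_eq continuous_snd continuous_const
    have a8 : IsClosed {p : ℝ × ℝ | p.1 ≤ 1 / 2} := isClosed_le continuous_fst continuous_const
    have a9 : IsClosed {p : ℝ × ℝ | p.1 ≤ 1 / 4} := isClosed_le continuous_fst continuous_const
    have b1 : IsClosed {p : ℝ × ℝ | p.2 ≤ 1 / 4} := isClosed_le continuous_snd continuous_const
    have b2 : IsClosed {p : ℝ × ℝ | 3 / 4 ≤ p.2} := isClosed_le continuous_const continuous_snd
    have b3 : IsClosed {p : ℝ × ℝ | min (min p.1 (1 / 2 - p.1)) (min p.2 (1 - p.2)) ∈ Zs} :=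
      isClosed_Zs.preimage (by fun_prop)
    exact (a1.inter (a2.inter (a3.inter a4))).inter
      (a5.union ((a6.union a7).union (a8.inter ((a9.union (b1.union b2)).inter b3))))
  · rintro p ⟨⟨h1, h2, h3, h4⟩, -⟩
    exact ⟨⟨h1, h2⟩, h3, h4⟩

/-- The compactum. -/
def K : Set T2 := c '' L

theorem isCompact_K : IsCompact K := isCompact_L.image continuous_c

theorem F_mem {p : T2} (hp : p ∈ K) : F p ∈ Zs := by
  obtain ⟨⟨u, v⟩, ⟨⟨h1, h2, h3, h4⟩, h⟩, rfl⟩ := hp
  simp only at h1 h2 h3 h4 h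
  rw [F_c h1 h2 h3 h4]
  rcases h with h | (h | h) | ⟨h5, -, h⟩
  · have e : min u (1 / 2 - u) ≤ 0 := (min_le_right _ _).trans (by linarith)
    rw [max_eq_left e, min_eq_left (le_min h3 (by linarith))]
    exact mem_insert _ _
  · subst h
    rw [min_eq_left (by norm_num : (0 : ℝ) ≤ 1 - 0), min_eq_right (le_max_left _ _)]
    exact mem_insert _ _
  · subst h
    rw [min_eq_right (by norm_num : (1 : ℝ) - 1 ≤ 1), min_eq_right
      (by rw [sub_self]; exact le_max_left _ _), sub_self]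
    exact mem_insert _ _
  · rw [max_eq_right (le_min h1 (by linarith))]
    exact h

end Pool.Agent.H740.Surf
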