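import Pool.Agent.H740.Surf.Coord

set_option autoImplicit false

open Set Topology Filter

namespace Pool.Agent.H740.Surf

/-- A continuous real function with countably many values is constant on a preconnected set. -/
theorem const_of_countable {X : Type} [TopologicalSpace X] {s : Set X} (hs : IsPreconnected s)
    {f : X → ℝ} (hf : ContinuousOn f s) {Z : Set ℝ} (hZ : Z.Countable) (h : ∀ x ∈ s, f x ∈ Z)
    {x y : X} (hx : x ∈ s) (hy : y ∈ s) : f x = f y := by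
  by_contra hne
  have hi : IsPreconnected (f '' s) := hs.image f hf
  have hsub : f '' s ⊆ Z := by rintro _ ⟨z, hz, rfl⟩; exact h z hz
  have key : ∀ a b : ℝ, a ∈ f '' s → b ∈ f '' s → a < b → False := by
    intro a b ha hb hab
    have h1 : Icc a b ⊆ f '' s := hi.ordConnected.out ha hb
    have h2 : (Icc a b).Countable := hZ.mono (h1.trans hsub)
    exact (Cardinal.Real.Icc_countable_iff.1 h2).not_gt hab
  rcases lt_or_gt_of_ne hne with h' | h'
  · exact key _ _ (mem_image_of_mem f hx) (mem_image_of_mem f hy) h'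
  · exact key _ _ (mem_image_of_mem f hy) (mem_image_of_mem f hx) h'

theorem countable_Zs : Zs.Countable := (countable_range _).insert _

/-- A point of the torus has a representative in the unit square. -/
theorem mem_L_of {p : T2} (hp : p ∈ K) : ∃ u v : ℝ, (u, v) ∈ L ∧ p = c (u, v) := by
  obtain ⟨⟨u, v⟩, h, rfl⟩ := hp
  exact ⟨u, v, h, rfl⟩

noncomputable def X0 : T2 := c (1 / 2, 1 / 4)
noncomputable def Y0 : T2 := c (1 / 2, 3 / 4)

theorem norm_sub_half {u : ℝ} (h0 : 0 ≤ u) (h1 : u ≤ 1) :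
    ‖(u : S1) - ((1 / 2 : ℝ) : S1)‖ = |u - 1 / 2| := by
  rw [← AddCircle.coe_sub, norm_coe_of_le (abs_le.2 ⟨by linarith, by linarith⟩)]

theorem norm_sub_quarter {v : ℝ} (h0 : 0 ≤ v) (h1 : v ≤ 3 / 4) :
    ‖(v : S1) - ((1 / 4 : ℝ) : S1)‖ = |v - 1 / 4| := by
  rw [← AddCircle.coe_sub, norm_coe_of_le (abs_le.2 ⟨by linarith, by linarith⟩)]

theorem norm_sub_quarter' {v : ℝ} (h0 : 3 / 4 ≤ v) (h1 : v ≤ 1) :
    ‖(v : S1) - ((1 / 4 : ℝ) : S1)‖ = 5 / 4 - v := by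
  have e : (v : S1) - ((1 / 4 : ℝ) : S1) = ((v - 5 / 4 : ℝ) : S1) := by
    rw [← AddCircle.coe_sub]; exact coe_eq_coe_iff.2 ⟨1, by norm_num⟩
  rw [e, norm_coe_of_le (abs_le.2 ⟨by linarith, by linarith⟩), abs_of_nonpos (by linarith)]
  ring

theorem norm_sub_3quarter {v : ℝ} (h0 : 1 / 4 ≤ v) (h1 : v ≤ 1) :
    ‖(v : S1) - ((3 / 4 : ℝ) : S1)‖ = |v - 3 / 4| := by
  rw [← AddCircle.coe_sub, norm_coe_of_le (abs_le.2 ⟨by linarith, by linarith⟩)]

theorem norm_sub_3quarter' {v : ℝ} (h0 : 0 ≤ v) (h1 : v ≤ 1 / 4) :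
    ‖(v : S1) - ((3 / 4 : ℝ) : S1)‖ = v + 1 / 4 := by
  have e : (v : S1) - ((3 / 4 : ℝ) : S1) = ((v + 1 / 4 : ℝ) : S1) := by
    rw [← AddCircle.coe_sub]; exact coe_eq_coe_iff.2 ⟨-1, by push_cast; ring⟩
  rw [e, norm_coe_of_le (abs_le.2 ⟨by linarith, by linarith⟩), abs_of_nonneg (by linarith)]

theorem near_X0 {u v r : ℝ} (hr : r ≤ 1 / 4) (hu0 : 0 ≤ u) (hu1 : u ≤ 1) (hv0 : 0 ≤ v)
    (hv1 : v ≤ 1) (h : dist (c (u, v)) X0 < r) : |u - 1 / 2| < r ∧ |v - 1 / 4| < r := by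
  rw [Prod.dist_eq, max_lt_iff] at h
  obtain ⟨h1, h2⟩ := h
  simp only [c, X0, dist_eq_norm] at h1 h2
  rw [norm_sub_half hu0 hu1] at h1
  refine ⟨h1, ?_⟩
  rcases le_total v (3 / 4) with hv | hv
  · rwa [norm_sub_quarter hv0 hv] at h2
  · rw [norm_sub_quarter' hv hv1] at h2
    linarith

theorem near_Y0 {u v r : ℝ} (hr : r ≤ 1 / 4) (hu0 : 0 ≤ u) (hu1 : u ≤ 1) (hv0 : 0 ≤ v)
    (hv1 : v ≤ 1) (h : dist (c (u, v)) Y0 < r) : |u - 1 / 2| < r ∧ |v - 3 / 4| < r := by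
  rw [Prod.dist_eq, max_lt_iff] at h
  obtain ⟨h1, h2⟩ := h
  simp only [c, Y0, dist_eq_norm] at h1 h2
  rw [norm_sub_half hu0 hu1] at h1
  refine ⟨h1, ?_⟩
  rcases le_total (1 / 4) v with hv | hv
  · rwa [norm_sub_3quarter hv hv1] at h2
  · rw [norm_sub_3quarter' hv0 hv] at h2
    linarith

/-- Height on the first leg. -/
noncomputable def φ (p : T2) : ℝ :=
  min (1 / 4 - ‖p.2 - ((1 / 4 : ℝ) : S1)‖) (1 / 4 - ‖p.1 - ((1 / 2 : ℝ) : S1)‖)

/-- Height on the second leg. -/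
noncomputable def ψ (p : T2) : ℝ :=
  min (1 / 4 - ‖p.2 - ((3 / 4 : ℝ) : S1)‖) (1 / 4 - ‖p.1 - ((1 / 2 : ℝ) : S1)‖)

theorem continuous_φ : Continuous φ := by unfold φ; fun_prop

theorem continuous_ψ : Continuous ψ := by unfold ψ; fun_prop

/-- In the part `F = 0` of `K`, the strip around the legs contains only the legs. -/
theorem leg_of {u v : ℝ} (hL : (u, v) ∈ L) (hF : F (c (u, v)) = 0) (hu : |u - 1 / 2| < 1 / 4)
    (hv0 : 0 < v) (hv1 : v < 1) : u = 1 / 2 ∧ (v ≤ 1 / 4 ∨ 3 / 4 ≤ v) := by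
  obtain ⟨⟨h1, h2, h3, h4⟩, h⟩ := hL
  simp only at h1 h2 h3 h4 h
  rw [F_c h1 h2 h3 h4] at hF
  rw [abs_lt] at hu
  rcases h with h | (h | h) | ⟨h5, h6, -⟩
  · linarith
  · linarith
  · linarith
  · have e1 : 0 < min v (1 - v) := lt_min hv0 (by linarith)
    have e2 : max 0 (min u (1 / 2 - u)) = 0 := by
      rcases min_choice (max 0 (min u (1 / 2 - u))) (min v (1 - v)) with e | e
      · rw [← e, hF]
      · rw [e] at hF; linarith
    have e3 : min u (1 / 2 - u) ≤ 0 := by rw [← e2]; exact le_max_right _ _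
    have e4 : u = 1 / 2 := by
      rcases min_le_iff.1 e3 with e | e
      · linarith
      · linarith
    refine ⟨e4, ?_⟩
    rcases h6 with h6 | h6 | h6
    · linarith
    · exact Or.inl h6
    · exact Or.inr h6

theorem φ_pos {p : T2} (hp : p ∈ K) (hF : F p = 0) (h : 0 < φ p) :
    p = c (1 / 2, φ p) ∧ φ p ≤ 1 / 4 := by
  obtain ⟨u, v, hL, rfl⟩ := mem_L_of hp
  have hL' := hL
  obtain ⟨⟨h1, h2, h3, h4⟩, -⟩ := hL'
  simp only at h1 h2 h3 h4
  have hφ := h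
  unfold φ c at hφ
  simp only at hφ
  obtain ⟨a1, a2⟩ := lt_min_iff.1 hφ
  rw [norm_sub_half h1 h2] at a2
  have hv : 0 < v ∧ v < 1 / 2 := by
    rcases le_total v (3 / 4) with hv | hv
    · rw [norm_sub_quarter h3 hv] at a1
      have := abs_lt.1 (show |v - 1 / 4| < 1 / 4 by linarith)
      exact ⟨by linarith, by linarith⟩
    · rw [norm_sub_quarter' hv h4] at a1
      linarith
  obtain ⟨b1, b2⟩ := leg_of hL hF (by linarith) hv.1 (by linarith)
  subst b1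
  have hv4 : v ≤ 1 / 4 := by
    rcases b2 with b | b
    · exact b
    · linarith
  have e : φ (c (1 / 2, v)) = v := by
    unfold φ c
    simp only
    rw [norm_sub_half (by norm_num) (by norm_num), norm_sub_quarter h3 (by linarith),
      abs_of_nonpos (by linarith : v - 1 / 4 ≤ 0)]
    norm_num
    linarith
  rw [e]
  exact ⟨rfl, hv4⟩

theorem ψ_pos {p : T2} (hp : p ∈ K) (hF : F p = 0) (h : 0 < ψ p) :
    p = c (1 / 2, 1 - ψ p) ∧ ψ p ≤ 1 / 4 := by
  obtain ⟨u, v, hL, rfl⟩ := mem_L_of hp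
  have hL' := hL
  obtain ⟨⟨h1, h2, h3, h4⟩, -⟩ := hL'
  simp only at h1 h2 h3 h4
  have hφ := h
  unfold ψ c at hφ
  simp only at hφ
  obtain ⟨a1, a2⟩ := lt_min_iff.1 hφ
  rw [norm_sub_half h1 h2] at a2
  have hv : 1 / 2 < v ∧ v < 1 := by
    rcases le_total (1 / 4) v with hv | hv
    · rw [norm_sub_3quarter hv h4] at a1
      have := abs_lt.1 (show |v - 3 / 4| < 1 / 4 by linarith)
      exact ⟨by linarith, by linarith⟩
    · rw [norm_sub_3quarter' h3 hv] at a1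
      linarith
  obtain ⟨b1, b2⟩ := leg_of hL hF (by linarith) (by linarith) hv.2
  subst b1
  have hv4 : 3 / 4 ≤ v := by
    rcases b2 with b | b
    · linarith
    · exact b
  have e : ψ (c (1 / 2, v)) = 1 - v := by
    unfold ψ c
    simp only
    rw [norm_sub_half (by norm_num) (by norm_num), norm_sub_3quarter (by linarith) h4,
      abs_of_nonneg (by linarith : 0 ≤ v - 3 / 4), sub_self, abs_zero,
      min_eq_left (by linarith : 1 / 4 - (v - 3 / 4) ≤ 1 / 4 - 0)]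
    ring
  rw [e]
  exact ⟨by rw [sub_sub_cancel], by linarith⟩

/-- `φ` near `X0`. -/
theorem φ_near {p : T2} (hp : p ∈ K) {r : ℝ} (hr : r ≤ 1 / 8) (h : dist p X0 < r) :
    1 / 4 - r < φ p ∧ ψ p ≤ 0 := by
  obtain ⟨u, v, ⟨⟨h1, h2, h3, h4⟩, -⟩, rfl⟩ := mem_L_of hp
  simp only at h1 h2 h3 h4
  obtain ⟨a1, a2⟩ := near_X0 (by linarith) h1 h2 h3 h4 h
  have a3 := abs_lt.1 a1
  have a4 := abs_lt.1 a2
  unfold φ ψ c
  simp only
  rw [norm_sub_half h1 h2, norm_sub_quarter h3 (by linarith)]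
  refine ⟨lt_min (by linarith) (by linarith), (min_le_left _ _).trans ?_⟩
  rcases le_total (1 / 4) v with hv | hv
  · rw [norm_sub_3quarter hv h4, abs_of_nonpos (by linarith)]
    linarith
  · rw [norm_sub_3quarter' h3 hv]
    linarith

theorem ψ_near {p : T2} (hp : p ∈ K) {r : ℝ} (hr : r ≤ 1 / 8) (h : dist p Y0 < r) :
    1 / 4 - r < ψ p ∧ φ p ≤ 0 := by
  obtain ⟨u, v, ⟨⟨h1, h2, h3, h4⟩, -⟩, rfl⟩ := mem_L_of hp
  simp only at h1 h2 h3 h4
  obtain ⟨a1, a2⟩ := near_Y0 (by linarith) h1 h2 h3 h4 h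
  have a3 := abs_lt.1 a1
  have a4 := abs_lt.1 a2
  unfold φ ψ c
  simp only
  rw [norm_sub_half h1 h2, norm_sub_3quarter (by linarith) h4]
  refine ⟨lt_min (by linarith) (by linarith), (min_le_left _ _).trans ?_⟩
  rcases le_total v (3 / 4) with hv | hv
  · rw [norm_sub_quarter h3 hv, abs_of_nonneg (by linarith)]
    linarith
  · rw [norm_sub_quarter' hv h4]
    linarith

/-- A connected subset of the part `F = 0` of `K` which contains a point near `X0` and a point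
near `Y0` contains the inner parts of the two legs. -/
theorem cut0 {P : Set T2} (hP : IsPreconnected P) (hK : P ⊆ K) (hF : ∀ p ∈ P, F p = 0)
    {x y : T2} (hx : x ∈ P) (hy : y ∈ P) (hxd : dist x X0 < 1 / 8) (hyd : dist y Y0 < 1 / 8) :
    ∃ a b : ℝ, 1 / 8 < a ∧ a ≤ 1 / 4 ∧ 1 / 8 < b ∧ b ≤ 1 / 4 ∧ x = c (1 / 2, a) ∧
      y = c (1 / 2, -b) ∧ ∀ t, -b ≤ t → t ≤ a → t ≠ 0 → c (1 / 2, t) ∈ P := by
  obtain ⟨h1, h2⟩ := φ_near (hK hx) le_rfl hxd
  obtain ⟨h3, h4⟩ := ψ_near (hK hy) le_rfl hyd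
  obtain ⟨h5, h6⟩ := φ_pos (hK hx) (hF x hx) (by linarith)
  obtain ⟨h7, h8⟩ := ψ_pos (hK hy) (hF y hy) (by linarith)
  have hc : ∀ s : ℝ, c (1 / 2, 1 - s) = c (1 / 2, -s) := fun s => by
    unfold c
    simp only
    rw [show ((1 - s : ℝ) : S1) = ((-s : ℝ) : S1) from coe_eq_coe_iff.2 ⟨1, by push_cast; ring⟩]
  rw [hc] at h7
  refine ⟨φ x, ψ y, by linarith, h6, by linarith, h8, h5, h7, ?_⟩
  intro t ht1 ht2 ht0
  rcases lt_or_gt_of_ne ht0 with ht | ht
  · have := hP.intermediate_value hx hy continuous_ψ.continuousOn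
    obtain ⟨p, hp, he⟩ := this (show -t ∈ Icc (ψ x) (ψ y) from ⟨by linarith, by linarith⟩)
    obtain ⟨h9, -⟩ := ψ_pos (hK hp) (hF p hp) (by rw [he]; linarith)
    rw [hc, he, neg_neg] at h9
    rwa [← h9]
  · have := hP.intermediate_value hy hx continuous_φ.continuousOn
    obtain ⟨p, hp, he⟩ := this (show t ∈ Icc (φ y) (φ x) from ⟨by linarith, by linarith⟩)
    obtain ⟨h9, -⟩ := φ_pos (hK hp) (hF p hp) (by rw [he]; linarith)
    rw [he] at h9
    rwa [← h9]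

/-- The second coordinate, as a number in `[0, 1)`. -/
noncomputable def vR (p : T2) : ℝ := (AddCircle.equivIco (1 : ℝ) 0 p.2 : ℝ)

theorem vR_c {u v : ℝ} (h0 : 0 ≤ v) (h1 : v < 1) : vR (c (u, v)) = v := by
  unfold vR c
  simp only
  rw [AddCircle.equivIco_coe_of_mem (by simpa using ⟨h0, h1⟩)]

theorem coe_vR (p : T2) : ((vR p : ℝ) : S1) = p.2 := AddCircle.coe_equivIco

theorem continuousAt_vR {p : T2} (h : p.2 ≠ 0) : ContinuousAt vR p := by
  have h1 : ContinuousAt (AddCircle.equivIco (1 : ℝ) 0) p.2 :=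
    AddCircle.continuousAt_equivIco 1 0 (by simpa using h)
  exact continuous_subtype_val.continuousAt.comp (h1.comp continuous_snd.continuousAt)

theorem snd_ne_zero {p : T2} (h : 0 < F p) : p.2 ≠ 0 := by
  intro h0
  unfold F at h
  rw [h0, norm_zero, min_eq_right (le_max_left _ _)] at h
  exact lt_irrefl _ h

/-- A connected subset of an arc which contains a point near `X0` and a point near `Y0` contains
the middle point. -/
theorem cutm {P : Set T2} (hP : IsPreconnected P) (hK : P ⊆ K) {e : ℝ} (he : 0 < e)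
    (hF : ∀ p ∈ P, F p = e)
    {x y : T2} (hx : x ∈ P) (hy : y ∈ P) (hxd : dist x X0 < 1 / 8) (hyd : dist y Y0 < 1 / 8) :
    c (e, 1 / 2) ∈ P := by
  have hx1 : vR x ≤ 1 / 2 := by
    obtain ⟨u, v, ⟨⟨h1, h2, h3, h4⟩, -⟩, rfl⟩ := mem_L_of (hK hx)
    simp only at h1 h2 h3 h4
    obtain ⟨-, a2⟩ := near_X0 (by norm_num) h1 h2 h3 h4 hxd
    have a4 := abs_lt.1 a2
    rw [vR_c h3 (by linarith)]
    linarith
  have hy1 : 1 / 2 ≤ vR y := by
    obtain ⟨u, v, ⟨⟨h1, h2, h3, h4⟩, -⟩, rfl⟩ := mem_L_of (hK hy)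
    simp only at h1 h2 h3 h4
    obtain ⟨-, a2⟩ := near_Y0 (by norm_num) h1 h2 h3 h4 hyd
    have a4 := abs_lt.1 a2
    rw [vR_c h3 (by linarith)]
    linarith
  have hcont : ContinuousOn vR P := fun p hp =>
    (continuousAt_vR (snd_ne_zero (by rw [hF p hp]; exact he))).continuousWithinAt
  obtain ⟨p, hp, hpe⟩ := hP.intermediate_value hx hy hcont ⟨hx1, hy1⟩
  obtain ⟨u, v, ⟨⟨h1, h2, h3, h4⟩, h⟩, rfl⟩ := mem_L_of (hK hp)
  simp only at h1 h2 h3 h4 h
  have hFp := hF _ hp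
  rw [F_c h1 h2 h3 h4] at hFp
  have hv1 : v < 1 := by
    rcases h4.lt_or_eq with h' | h'
    · exact h'
    · subst h'
      rw [min_eq_right (by norm_num : (1 : ℝ) - 1 ≤ 1), min_eq_right
        (by rw [sub_self]; exact le_max_left _ _), sub_self] at hFp
      linarith
  rw [vR_c h3 hv1] at hpe
  subst hpe
  rcases h with h | (h | h) | ⟨h5, h6, -⟩
  · have e : min u (1 / 2 - u) ≤ 0 := (min_le_right _ _).trans (by linarith)
    rw [max_eq_left e, min_eq_left (le_min h3 (by linarith))] at hFp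
    linarith
  · norm_num at h
  · norm_num at h
  · have h7 : u ≤ 1 / 4 := by
      rcases h6 with h6 | h6 | h6
      · exact h6
      · norm_num at h6
      · norm_num at h6
    rw [min_eq_left (by linarith : u ≤ 1 / 2 - u), max_eq_right h1, min_eq_left
      (le_min (by linarith) (by linarith))] at hFp
    rwa [← hFp]

end Pool.Agent.H740.Surf
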