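import Mathlib

set_option autoImplicit false

open Set Topology Filter

namespace Pool.Agent.H740.Surf

/-- A closed surface: a compact connected 2-manifold without boundary (a compact connected
Hausdorff space each point of which has an open neighbourhood homeomorphic to an open subset of
the plane). -/
structure IsClosedSurface (S : Type) [TopologicalSpace S] : Prop where
  compact : CompactSpace S
  connected : ConnectedSpace S
  hausdorff : T2Space S
  chart : ∀ p : S, ∃ U : Set S, IsOpen U ∧ p ∈ U ∧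
    ∃ V : Set (ℝ × ℝ), IsOpen V ∧ Nonempty (U ≃ₜ V)

/-- `K` is planar: it is homeomorphic to a subset of `ℝ²`. -/
def IsPlanar {S : Type} [TopologicalSpace S] (K : Set S) : Prop :=
  ∃ A : Set (ℝ × ℝ), Nonempty (K ≃ₜ A)

/-- `C` is a (connected) component of the subset `A` of a space. -/
def IsComponent {X : Type} [TopologicalSpace X] (A C : Set X) : Prop :=
  ∃ a ∈ A, C = connectedComponentIn A a

/-- The components of `X \ (U ∪ V)` that meet both the boundary of `U` and that of `V`. -/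
def crossing {X : Type} [TopologicalSpace X] (U V : Set X) : Set (Set X) :=
  {C | IsComponent (U ∪ V)ᶜ C ∧ (C ∩ frontier U).Nonempty ∧ (C ∩ frontier V).Nonempty}

/-- The relation `R̃_K`. Everything takes place in the space `K`. -/
def Rtilde {S : Type} [TopologicalSpace S] (K : Set S) (x y : K) : Prop :=
  x = y ∨ ∃ U V : ℕ → Set K, Antitone U ∧ Antitone V ∧ (∀ n, U n ∈ 𝓝 x) ∧ (∀ n, V n ∈ 𝓝 y) ∧
    (⋂ n, U n) = {x} ∧ (⋂ n, V n) = {y} ∧ ∀ n, (crossing (U n) (V n)).Infinite

/-- The relation `R̃_K` with the strictest reading of the neighbourhoods: the `U n`, and the `V n`,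
are open and form a neighbourhood base. -/
def RtildeBase {S : Type} [TopologicalSpace S] (K : Set S) (x y : K) : Prop :=
  x = y ∨ ∃ U V : ℕ → Set K, Antitone U ∧ Antitone V ∧ (∀ n, IsOpen (U n)) ∧
    (∀ n, IsOpen (V n)) ∧ (𝓝 x).HasBasis (fun _ => True) U ∧ (𝓝 y).HasBasis (fun _ => True) V ∧
    (⋂ n, U n) = {x} ∧ (⋂ n, V n) = {y} ∧ ∀ n, (crossing (U n) (V n)).Infinite

/-- The unit square. -/
abbrev Sq : Type := unitInterval × unitInterval

/-- The relation `R_K`, for points of the surface `S`. The marked quadrilateral is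
`Q = h([0,1]²)`, `I₁ = h([0,1] × {1})`, `I₂ = h([0,1] × {0})`. -/
def R {S : Type} [MetricSpace S] (K : Set S) (x y : S) : Prop :=
  x = y ∨ ∃ h : Sq → S, IsEmbedding h ∧
    x ∈ h '' {p | p.2 = 1} ∧ y ∈ h '' {p | p.2 = 0} ∧
    Disjoint (h '' {p | p.1 = 0 ∨ p.1 = 1 ∨ p.2 = 0 ∨ p.2 = 1} \
      (h '' {p | p.2 = 1} ∪ h '' {p | p.2 = 0})) K ∧
    ∃ C : ℕ → Set S, Function.Injective C ∧
      (∀ n, IsComponent (K ∩ range h) (C n) ∧ (C n ∩ h '' {p | p.2 = 1}).Nonempty ∧
        (C n ∩ h '' {p | p.2 = 0}).Nonempty) ∧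
      ∃ L : Set S, IsCompact L ∧ IsConnected L ∧
        Tendsto (fun n => Metric.hausdorffDist (C n) L) atTop (𝓝 0) ∧ x ∈ L ∧ y ∈ L

end Pool.Agent.H740.Surf
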