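import Pool.Agent.H740.Surf.Cut

set_option autoImplicit false

open Set Topology Filter

namespace Pool.Agent.H740.Surf

/-- The second coordinate lifts to the reals along a square. -/
theorem exists_lift {h : Sq → T2} (hc : Continuous h) :
    ∃ G : Sq → ℝ, Continuous G ∧ ∀ s, ((G s : ℝ) : S1) = (h s).2 := by
  set f : C(ℝ × ℝ, S1) := ⟨fun q => (h (projIcc 0 1 zero_le_one q.1, projIcc 0 1 zero_le_one q.2)).2,
    by fun_prop⟩ with hf
  obtain ⟨e, he⟩ : ∃ e : ℝ, ((e : ℝ) : S1) = f (0, 0) := ⟨_, AddCircle.coe_equivIco (a := 0)⟩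
  obtain ⟨G, ⟨-, hG⟩, -⟩ :=
    (AddCircle.isCoveringMap_coe (1 : ℝ)).existsUnique_continuousMap_lifts f (0, 0) e he
  refine ⟨fun s => G (s.1, s.2), by fun_prop, fun s => ?_⟩
  have := congrFun hG ((s.1 : ℝ), (s.2 : ℝ))
  simp only [Function.comp_apply, hf, ContinuousMap.coe_mk, projIcc_val] at this
  exact this

theorem countable_int : (range ((↑) : ℤ → ℝ)).Countable := countable_range _

theorem comp_eq {A C C' : Set T2} (hC : IsComponent A C) (hC' : IsComponent A C') {p : T2}
    (hp : p ∈ C) (hp' : p ∈ C') : C = C' := by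
  obtain ⟨a, ha, rfl⟩ := hC
  obtain ⟨a', ha', rfl⟩ := hC'
  rw [connectedComponentIn_eq hp, connectedComponentIn_eq hp']

theorem comp_sub {A C : Set T2} (hC : IsComponent A C) : C ⊆ A := by
  obtain ⟨a, ha, rfl⟩ := hC
  exact connectedComponentIn_subset _ _

theorem comp_pre {A C : Set T2} (hC : IsComponent A C) : IsPreconnected C := by
  obtain ⟨a, ha, rfl⟩ := hC
  exact isPreconnected_connectedComponentIn

theorem comp_ne {A C : Set T2} (hC : IsComponent A C) : C.Nonempty := by
  obtain ⟨a, ha, rfl⟩ := hC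
  exact ⟨a, mem_connectedComponentIn ha⟩

/-- Only finitely many values of the depth function lie above a given positive number. -/
theorem finite_Zs {e : ℝ} (he : 0 < e) : {z | z ∈ Zs ∧ e ≤ z}.Finite := by
  obtain ⟨N, hN⟩ := exists_nat_gt (1 / e)
  refine ((finite_lt_nat N).image fun m : ℕ => 1 / ((m : ℝ) + 8)).subset ?_
  rintro z ⟨hz, hez⟩
  rcases hz with rfl | ⟨m, rfl⟩
  · linarith
  · refine ⟨m, ?_, rfl⟩
    simp only at hez
    have hm : (0 : ℝ) < (m : ℝ) + 8 := by positivity
    rw [le_div_iff₀ hm] at hez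
    rw [div_lt_iff₀ he] at hN
    have : (m : ℝ) < N := by
      by_contra hcon
      push Not at hcon
      nlinarith
    exact_mod_cast this

/-- The main point: no closed disc of the torus contains infinitely many components of its
intersection with `K` that converge to a continuum which contains a point near `X0` and a point
near `Y0`. -/
theorem no_quad {h : Sq → T2} (hh : IsEmbedding h) {C : ℕ → Set T2} (hinj : Function.Injective C)
    (hC : ∀ n, IsComponent (K ∩ range h) (C n)) {M : Set T2} (hM : IsCompact M)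
    (hMc : IsConnected M) (hlim : Tendsto (fun n => Metric.hausdorffDist (C n) M) atTop (𝓝 0))
    {x y : T2} (hx : x ∈ M) (hy : y ∈ M) (hxd : dist x X0 < 1 / 16) (hyd : dist y Y0 < 1 / 16) :
    False := by
  have hrc : IsClosed (range h) := (isCompact_range hh.continuous).isClosed
  have hKr : IsClosed (K ∩ range h) := isCompact_K.isClosed.inter hrc
  have hfin : ∀ n, Metric.hausdorffEDist (C n) M ≠ ⊤ := fun n =>
    Metric.hausdorffEDist_ne_top_of_nonempty_of_bounded (comp_ne (hC n)) hMc.nonempty
      (isCompact_univ.isBounded.subset (subset_univ _)) hM.isBounded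
  -- approximation of the points of `M`
  have happ : ∀ q ∈ M, ∃ u : ℕ → T2, (∀ n, u n ∈ C n) ∧ Tendsto u atTop (𝓝 q) := by
    intro q hq
    have : ∀ n : ℕ, ∃ p ∈ C n, dist p q < Metric.hausdorffDist (C n) M + 1 / ((n : ℝ) + 1) :=
      fun n => Metric.exists_dist_lt_of_hausdorffDist_lt' hq
        (by have : (0 : ℝ) < 1 / ((n : ℝ) + 1) := by positivity
            linarith) (hfin n)
    choose u hu hud using this
    refine ⟨u, hu, ?_⟩
    rw [tendsto_iff_dist_tendsto_zero]
    refine squeeze_zero (fun _ => dist_nonneg) (fun n => (hud n).le) ?_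
    simpa using hlim.add tendsto_one_div_add_atTop_nhds_zero_nat
  have hMsub : M ⊆ K ∩ range h := by
    intro q hq
    obtain ⟨u, hu, hut⟩ := happ q hq
    exact hKr.mem_of_tendsto hut (Eventually.of_forall fun n => comp_sub (hC n) (hu n))
  obtain ⟨u, hu, hut⟩ := happ x hx
  obtain ⟨w, hw, hwt⟩ := happ y hy
  have evu : ∀ᶠ n in atTop, dist (u n) X0 < 1 / 8 := by
    have : Tendsto (fun n => dist (u n) X0) atTop (𝓝 (dist x X0)) := hut.dist tendsto_const_nhds
    exact this.eventually_lt_const (by linarith)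
  have evw : ∀ᶠ n in atTop, dist (w n) Y0 < 1 / 8 := by
    have : Tendsto (fun n => dist (w n) Y0) atTop (𝓝 (dist y Y0)) := hwt.dist tendsto_const_nhds
    exact this.eventually_lt_const (by linarith)
  obtain ⟨N, hN⟩ := (evu.and evw).exists_forall_of_atTop
  -- the depth is constant on the components
  have hFc : ∀ n, ∀ p ∈ C n, F p = F (u n) := fun n p hp =>
    const_of_countable (comp_pre (hC n)) continuous_F.continuousOn countable_Zs
      (fun q hq => F_mem (comp_sub (hC n) hq).1) hp (hu n)
  have hCK : ∀ n, C n ⊆ K := fun n => (comp_sub (hC n)).trans inter_subset_left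
  have hval : ∀ n n', N ≤ n → N ≤ n' → F (u n) = F (u n') → n = n' := by
    intro n n' hn hn' he
    apply hinj
    have hpos : 0 ≤ F (u n) := by
      unfold F
      exact le_min (le_max_left _ _) (norm_nonneg _)
    rcases hpos.eq_or_lt with h0 | h0
    · obtain ⟨a, b, ha, -, hb, -, -, -, hab⟩ := cut0 (comp_pre (hC n)) (hCK n)
        (fun p hp => by rw [hFc n p hp, ← h0]) (hu n) (hw n) (hN n hn).1 (hN n hn).2
      obtain ⟨a', b', ha', -, hb', -, -, -, hab'⟩ := cut0 (comp_pre (hC n')) (hCK n')
        (fun p hp => by rw [hFc n' p hp, ← he, ← h0]) (hu n') (hw n') (hN n' hn').1 (hN n' hn').2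
      exact comp_eq (hC n) (hC n') (hab (1 / 16) (by linarith) (by linarith) (by norm_num))
        (hab' (1 / 16) (by linarith) (by linarith) (by norm_num))
    · have k1 := cutm (comp_pre (hC n)) (hCK n) h0 (hFc n) (hu n) (hw n) (hN n hn).1 (hN n hn).2
      have k2 := cutm (comp_pre (hC n')) (hCK n') h0 (fun p hp => by rw [hFc n' p hp, he])
        (hu n') (hw n') (hN n' hn').1 (hN n' hn').2
      exact comp_eq (hC n) (hC n') k1 k2
  -- hence the depth tends to zero
  have hF0 : Tendsto (fun n => F (u n)) atTop (𝓝 0) := by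
    rw [Metric.tendsto_atTop]
    intro e he
    have hf : {n | N ≤ n ∧ e ≤ F (u n)}.Finite := by
      refine Set.Finite.of_finite_image ((finite_Zs he).subset ?_) (f := fun n => F (u n)) ?_
      · rintro _ ⟨n, ⟨hn, hne⟩, rfl⟩
        exact ⟨F_mem (hCK n (hu n)), hne⟩
      · rintro n ⟨hn, -⟩ n' ⟨hn', -⟩ hnn
        exact hval n n' hn hn' hnn
    obtain ⟨B, hB⟩ := hf.bddAbove
    refine ⟨max N (B + 1), fun n hn => ?_⟩
    have hn1 : N ≤ n := (le_max_left _ _).trans hn
    have hn2 : B + 1 ≤ n := (le_max_right _ _).trans hn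
    have hpos : 0 ≤ F (u n) := by
      unfold F
      exact le_min (le_max_left _ _) (norm_nonneg _)
    rw [Real.dist_eq, sub_zero, abs_of_nonneg hpos]
    by_contra hcon
    push Not at hcon
    have := hB (show n ∈ {n | N ≤ n ∧ e ≤ F (u n)} from ⟨hn1, hcon⟩)
    omega
  have hFM : ∀ q ∈ M, F q = 0 := by
    intro q hq
    obtain ⟨v, hv, hvt⟩ := happ q hq
    have h1 : Tendsto (fun n => F (v n)) atTop (𝓝 (F q)) := continuous_F.continuousAt.tendsto.comp hvt
    have h2 : (fun n => F (v n)) = fun n => F (u n) := funext fun n => hFc n _ (hv n)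
    rw [h2] at h1
    exact tendsto_nhds_unique h1 hF0
  obtain ⟨a, b, ha, ha', hb, hb', hxe, hye, hab⟩ := cut0 hMc.isPreconnected
    (hMsub.trans inter_subset_left) hFM hx hy (by linarith) (by linarith)
  have hseg : ∀ t, -b ≤ t → t ≤ a → c (1 / 2, t) ∈ M := by
    intro t ht1 ht2
    by_cases ht : t = 0
    · subst ht
      have : Tendsto (fun n : ℕ => c (1 / 2, 1 / ((n : ℝ) + 16))) atTop (𝓝 (c (1 / 2, 0))) := by
        refine (continuous_c.tendsto _).comp ?_
        refine tendsto_const_nhds.prodMk_nhds ?_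
        have h16 : Tendsto (fun m : ℕ => (m : ℝ) + 16) atTop atTop :=
          tendsto_atTop_add_const_right _ _ tendsto_natCast_atTop_atTop
        simpa [Function.comp_def, Pi.inv_def] using h16.inv_tendsto_atTop
      refine hM.isClosed.mem_of_tendsto this (Eventually.of_forall fun n => ?_)
      have h1 : (0 : ℝ) < 1 / ((n : ℝ) + 16) := by positivity
      have h2 : 1 / ((n : ℝ) + 16) ≤ 1 / 16 := by
        apply one_div_le_one_div_of_le (by norm_num)
        have : (0 : ℝ) ≤ n := Nat.cast_nonneg n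
        linarith
      exact hab _ (by linarith) (by linarith) h1.ne'
    · exact hab t ht1 ht2 ht
  -- the lift
  obtain ⟨G, hGc, hG⟩ := exists_lift hh.continuous
  set E := hh.toHomeomorph with hE
  have hinv : ∀ q (hq : q ∈ range h), h (E.symm ⟨q, hq⟩) = q := fun q hq =>
    congrArg Subtype.val (E.apply_symm_apply ⟨q, hq⟩)
  have hxr : x ∈ range h := (hMsub hx).2
  have hyr : y ∈ range h := (hMsub hy).2
  -- along the legs
  have hmemr : ∀ t : Icc (-b) a, c (1 / 2, (t : ℝ)) ∈ range h := fun t =>
    (hMsub (hseg t t.2.1 t.2.2)).2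
  have e1 : G (E.symm ⟨y, hyr⟩) - (-b) = G (E.symm ⟨x, hxr⟩) - a := by
    have hcont : Continuous fun t : Icc (-b) a => G (E.symm ⟨c (1 / 2, (t : ℝ)), hmemr t⟩) - t := by
      refine (hGc.comp (E.symm.continuous.comp ?_)).sub continuous_subtype_val
      refine Continuous.subtype_mk ?_ _
      exact continuous_c.comp (by fun_prop)
    have hba : -b ≤ a := by linarith
    have : PreconnectedSpace (Icc (-b) a) := isPreconnected_iff_preconnectedSpace.1 isPreconnected_Icc
    have := const_of_countable (s := (univ : Set (Icc (-b) a))) isPreconnected_univ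
      hcont.continuousOn countable_int (fun t _ => by
        have h1 := hG (E.symm ⟨c (1 / 2, (t : ℝ)), hmemr t⟩)
        rw [hinv] at h1
        obtain ⟨n, hn⟩ := coe_eq_coe_iff.1 h1
        exact ⟨n, hn.symm⟩)
      (mem_univ ⟨-b, left_mem_Icc.2 hba⟩) (mem_univ ⟨a, right_mem_Icc.2 hba⟩)
    simp only at this
    have ey : (⟨y, hyr⟩ : range h) = ⟨c (1 / 2, -b), hmemr ⟨-b, left_mem_Icc.2 hba⟩⟩ :=
      Subtype.ext hye
    have ex : (⟨x, hxr⟩ : range h) = ⟨c (1 / 2, a), hmemr ⟨a, right_mem_Icc.2 hba⟩⟩ :=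
      Subtype.ext hxe
    rw [ey, ex]
    exact this
  -- along the arcs
  have hur : ∀ n, u n ∈ range h := fun n => (comp_sub (hC n) (hu n)).2
  have hwr : ∀ n, w n ∈ range h := fun n => (comp_sub (hC n) (hw n)).2
  have e2 : ∀ᶠ n in atTop, G (E.symm ⟨w n, hwr n⟩) - vR (w n) =
      G (E.symm ⟨u n, hur n⟩) - vR (u n) := by
    have hpos : ∀ᶠ n in atTop, 0 < F (u n) := by
      by_cases hex : ∃ n0, N ≤ n0 ∧ F (u n0) = 0
      · obtain ⟨n0, hn0, hz⟩ := hex
        filter_upwards [eventually_gt_atTop (max N n0)] with n hn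
        have h1 : N ≤ n := (le_max_left _ _).trans hn.le
        have h2 : n0 < n := (le_max_right _ _).trans_lt hn
        have hp : 0 ≤ F (u n) := by
          unfold F
          exact le_min (le_max_left _ _) (norm_nonneg _)
        refine lt_of_le_of_ne hp fun h3 => ?_
        have := hval n n0 h1 hn0 (by rw [← h3, hz])
        omega
      · push Not at hex
        filter_upwards [eventually_ge_atTop N] with n hn
        have hp : 0 ≤ F (u n) := by
          unfold F
          exact le_min (le_max_left _ _) (norm_nonneg _)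
        exact lt_of_le_of_ne hp (hex n hn).symm
    filter_upwards [hpos] with n hn
    have hpre : IsPreconnected (h ⁻¹' C n) := by
      rw [← hh.isInducing.isPreconnected_image, image_preimage_eq_of_subset
        ((comp_sub (hC n)).trans inter_subset_right)]
      exact comp_pre (hC n)
    have hcont : ContinuousOn (fun s => G s - vR (h s)) (h ⁻¹' C n) := by
      intro s hs
      refine (hGc.continuousAt.sub ?_).continuousWithinAt
      exact (continuousAt_vR (snd_ne_zero (by rw [hFc n _ hs]; exact hn))).comp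
        hh.continuous.continuousAt
    have := const_of_countable hpre hcont countable_int (fun s _ => by
        have h1 := hG s
        rw [← coe_vR] at h1
        obtain ⟨n, hn⟩ := coe_eq_coe_iff.1 h1
        exact ⟨n, hn.symm⟩)
      (x := E.symm ⟨w n, hwr n⟩) (y := E.symm ⟨u n, hur n⟩)
      (by rw [mem_preimage, hinv]; exact hw n) (by rw [mem_preimage, hinv]; exact hu n)
    simp only [hinv] at this
    exact this
  have hx2 : x.2 ≠ 0 := by
    rw [hxe]
    intro h0
    have h1 : ‖((a : ℝ) : S1)‖ = 0 := by rw [show ((a : ℝ) : S1) = 0 from h0, norm_zero]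
    rw [norm_coe_unit (by linarith) (by linarith), min_eq_left (by linarith)] at h1
    linarith
  have hyc : y = c (1 / 2, 1 - b) := by
    rw [hye]
    unfold c
    simp only
    rw [show ((1 - b : ℝ) : S1) = ((-b : ℝ) : S1) from coe_eq_coe_iff.2 ⟨1, by push_cast; ring⟩]
  have hy2 : y.2 ≠ 0 := by
    rw [hyc]
    intro h0
    have h1 : ‖((1 - b : ℝ) : S1)‖ = 0 := by rw [show ((1 - b : ℝ) : S1) = 0 from h0, norm_zero]
    rw [norm_coe_unit (by linarith) (by linarith), min_eq_right (by linarith)] at h1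
    linarith
  have t1 : Tendsto (fun n => G (E.symm ⟨w n, hwr n⟩) - vR (w n)) atTop
      (𝓝 (G (E.symm ⟨y, hyr⟩) - vR y)) := by
    refine Tendsto.sub ?_ ((continuousAt_vR hy2).tendsto.comp hwt)
    refine (hGc.comp E.symm.continuous).continuousAt.tendsto.comp ?_
    exact tendsto_subtype_rng.2 hwt
  have t2 : Tendsto (fun n => G (E.symm ⟨u n, hur n⟩) - vR (u n)) atTop
      (𝓝 (G (E.symm ⟨x, hxr⟩) - vR x)) := by
    refine Tendsto.sub ?_ ((continuousAt_vR hx2).tendsto.comp hut)
    refine (hGc.comp E.symm.continuous).continuousAt.tendsto.comp ?_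
    exact tendsto_subtype_rng.2 hut
  have e3 : G (E.symm ⟨y, hyr⟩) - vR y = G (E.symm ⟨x, hxr⟩) - vR x :=
    tendsto_nhds_unique (t1.congr' e2) t2
  have vx : vR x = a := by rw [hxe, vR_c (by linarith) (by linarith)]
  have vy : vR y = 1 - b := by rw [hyc, vR_c (by linarith) (by linarith)]
  rw [vx, vy] at e3
  linarith

end Pool.Agent.H740.Surf
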