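import Pool.Agent.H740.Surf.Coord
import Pool.Graph.R_pool_sql_team_668148b0.Helper300.Disc

set_option autoImplicit false

open Set Topology Filter

namespace Pool.Agent.H740.Surf

/-- A box with end points in `ℤ/48`. -/
structure Box where
  a : ℤ
  b : ℤ
  a' : ℤ
  b' : ℤ
  deriving DecidableEq

def Box.ok (B : Box) : Prop := 0 ≤ B.a ∧ B.a ≤ B.b ∧ B.b ≤ 48 ∧ 0 ≤ B.a' ∧ B.a' ≤ B.b' ∧ B.b' ≤ 48

instance (B : Box) : Decidable B.ok := by unfold Box.ok; infer_instance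

/-- The box in the plane. -/
def Box.pl (B : Box) : Set (ℝ × ℝ) :=
  Icc (B.a / 48 : ℝ) (B.b / 48) ×ˢ Icc (B.a' / 48 : ℝ) (B.b' / 48)

/-- The box in the torus. -/
def Box.to (B : Box) : Set T2 := c '' B.pl

theorem Box.isCompact_to (B : Box) : IsCompact B.to :=
  (isCompact_Icc.prod isCompact_Icc).image continuous_c

theorem Box.preconnected_to (B : Box) : IsPreconnected B.to :=
  (isPreconnected_Icc.prod isPreconnected_Icc).image _ continuous_c.continuousOn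

/-- The grid point `(x/48, y/48)` of the torus. -/
noncomputable def gp (x y : ℤ) : T2 := c (x / 48, y / 48)

theorem Box.gp_mem {B : Box} {x y : ℤ} (h : (B.a ≤ x ∧ x ≤ B.b) ∧ (B.a' ≤ y ∧ y ≤ B.b')) :
    gp x y ∈ B.to := by
  obtain ⟨⟨h1, h2⟩, h3, h4⟩ := h
  have h1' : (B.a : ℝ) ≤ x := by exact_mod_cast h1
  have h2' : (x : ℝ) ≤ B.b := by exact_mod_cast h2
  have h3' : (B.a' : ℝ) ≤ y := by exact_mod_cast h3
  have h4' : (y : ℝ) ≤ B.b' := by exact_mod_cast h4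
  exact ⟨_, ⟨⟨by simp only; linarith, by simp only; linarith⟩,
    ⟨by simp only; linarith, by simp only; linarith⟩⟩, rfl⟩

theorem gp_wrap (x y m n : ℤ) : gp (x + 48 * m) (y + 48 * n) = gp x y := by
  unfold gp c
  exact Prod.ext (coe_eq_coe_iff.2 ⟨m, by push_cast; ring⟩)
    (coe_eq_coe_iff.2 ⟨n, by push_cast; ring⟩)

/-- Separation of two intervals of the circle. -/
def sepI (a b a' b' : ℤ) : Prop :=
  (b < a' ∨ b' < a) ∧ (b < a' + 48 ∨ b' + 48 < a) ∧ (b < a' - 48 ∨ b' - 48 < a)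

instance (a b a' b' : ℤ) : Decidable (sepI a b a' b') := by unfold sepI; infer_instance

theorem sepI_spec {a b a' b' : ℤ} (h : sepI a b a' b') (ha : 0 ≤ a) (hb : b ≤ 48) (ha' : 0 ≤ a')
    (hb' : b' ≤ 48) {u u' : ℝ} (h1 : a / 48 ≤ u) (h2 : u ≤ b / 48) (h3 : a' / 48 ≤ u')
    (h4 : u' ≤ b' / 48) : (u : S1) ≠ (u' : S1) := by
  intro he
  obtain ⟨n, hn⟩ := coe_eq_coe_iff.1 he
  have ha0 : (0 : ℝ) ≤ a := by exact_mod_cast ha
  have hb0 : (b : ℝ) ≤ 48 := by exact_mod_cast hb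
  have ha0' : (0 : ℝ) ≤ a' := by exact_mod_cast ha'
  have hb0' : (b' : ℝ) ≤ 48 := by exact_mod_cast hb'
  have n1 : (n : ℝ) ≤ 1 := by rw [← hn]; linarith
  have n2 : (-1 : ℝ) ≤ n := by rw [← hn]; linarith
  have n1' : n ≤ 1 := by exact_mod_cast n1
  have n2' : -1 ≤ n := by exact_mod_cast n2
  -- a - b' ≤ 48 n ≤ b - a'
  have k1 : (a : ℝ) - b' ≤ 48 * n := by rw [← hn]; linarith
  have k2 : (48 : ℝ) * n ≤ b - a' := by rw [← hn]; linarith
  have k1' : a - b' ≤ 48 * n := by exact_mod_cast k1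
  have k2' : 48 * n ≤ b - a' := by exact_mod_cast k2
  unfold sepI at h
  omega

/-- Separation of two boxes of the torus. -/
def sepB (B B' : Box) : Prop := sepI B.a B.b B'.a B'.b ∨ sepI B.a' B.b' B'.a' B'.b'

instance (B B' : Box) : Decidable (sepB B B') := by unfold sepB; infer_instance

theorem sepB_spec {B B' : Box} (h : sepB B B') (hB : B.ok) (hB' : B'.ok) :
    Disjoint B.to B'.to := by
  rw [Set.disjoint_left]
  rintro _ ⟨⟨u, v⟩, ⟨⟨h1, h2⟩, h3, h4⟩, rfl⟩ ⟨⟨u', v'⟩, ⟨⟨h5, h6⟩, h7, h8⟩, he⟩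
  obtain ⟨b1, b2, b3, b4, b5, b6⟩ := hB
  obtain ⟨d1, d2, d3, d4, d5, d6⟩ := hB'
  have he' := Prod.ext_iff.1 he
  simp only [c] at he'
  rcases h with h | h
  · exact sepI_spec h b1 b3 d1 d3 h1 h2 h5 h6 he'.1.symm
  · exact sepI_spec h b4 b6 d4 d6 h3 h4 h7 h8 he'.2.symm

/-- The union of a list of boxes, in the torus. -/
def TB (l : List Box) : Set T2 := {q | ∃ B ∈ l, q ∈ B.to}

theorem TB_cons (B : Box) (l : List Box) : TB (B :: l) = B.to ∪ TB l := by
  ext q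
  simp [TB]

theorem TB_nil : TB [] = ∅ := by
  ext q
  simp [TB]

theorem TB_one (B : Box) : TB [B] = B.to := by
  rw [TB_cons, TB_nil, union_empty]

theorem isCompact_TB (l : List Box) : IsCompact (TB l) := by
  induction l with
  | nil => rw [TB_nil]; exact isCompact_empty
  | cons B l ih => rw [TB_cons]; exact B.isCompact_to.union ih

/-- All the boxes of the list lie in the compactum. -/
def inK (l : List Box) : Prop := ∀ B ∈ l, B.ok ∧ (36 ≤ B.a ∨ (B.a' = 0 ∧ B.b' = 0))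

instance (l : List Box) : Decidable (inK l) := by unfold inK; infer_instance

theorem inK_spec {l : List Box} (h : inK l) : TB l ⊆ K := by
  rintro q ⟨B, hB, ⟨u, v⟩, ⟨⟨h1, h2⟩, h3, h4⟩, rfl⟩
  obtain ⟨⟨b1, b2, b3, b4, b5, b6⟩, hh⟩ := h B hB
  simp only at h1 h2 h3 h4
  have c1 : (0 : ℝ) ≤ B.a := by exact_mod_cast b1
  have c3 : (B.b : ℝ) ≤ 48 := by exact_mod_cast b3
  have c4 : (0 : ℝ) ≤ B.a' := by exact_mod_cast b4
  have c6 : (B.b' : ℝ) ≤ 48 := by exact_mod_cast b6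
  refine ⟨(u, v), ⟨⟨by simp only; linarith, by simp only; linarith, by simp only; linarith,
    by simp only; linarith⟩, ?_⟩, rfl⟩
  simp only
  rcases hh with hh | ⟨hh, hh'⟩
  · left
    have : (36 : ℝ) ≤ B.a := by exact_mod_cast hh
    linarith
  · right
    left
    left
    rw [hh] at h3
    rw [hh'] at h4
    push_cast at h3 h4
    linarith

/-- The union of a list of boxes, in the compactum. -/
def KB (l : List Box) : Set K := {q | q.1 ∈ TB l}

theorem isClosed_KB (l : List Box) : IsClosed (KB l) :=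
  (isCompact_TB l).isClosed.preimage continuous_subtype_val

theorem KB_pre {l : List Box} (h : inK l) (hp : IsPreconnected (TB l)) :
    IsPreconnected (KB l) := by
  rw [← IsInducing.subtypeVal.isPreconnected_image]
  have : ((↑) : K → T2) '' KB l = TB l := by
    ext q
    constructor
    · rintro ⟨q', hq', rfl⟩
      exact hq'
    · intro hq
      exact ⟨⟨q, inK_spec h hq⟩, hq, rfl⟩
  rw [this]
  exact hp

/-- Separation of lists of boxes. -/
def sepL (l l' : List Box) : Prop := ∀ B ∈ l, ∀ B' ∈ l', sepB B B'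

instance (l l' : List Box) : Decidable (sepL l l') := by unfold sepL; infer_instance

theorem sepL_spec {l l' : List Box} (h : sepL l l') (hl : inK l) (hl' : inK l') :
    Disjoint (KB l) (KB l') := by
  rw [Set.disjoint_left]
  rintro q ⟨B, hB, hq⟩ ⟨B', hB', hq'⟩
  exact Set.disjoint_left.1 (sepB_spec (h B hB B' hB') (hl B hB).1 (hl' B' hB').1) hq hq'

/-- The nine arms. -/
def Rl : Fin 3 → Fin 3 → List Box := ![
  ![[⟨42, 42, 0, 6⟩], [⟨42, 45, 0, 0⟩], [⟨42, 42, 42, 48⟩]],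
  ![[⟨42, 42, 10, 16⟩], [⟨42, 42, 16, 22⟩], [⟨36, 42, 16, 16⟩]],
  ![[⟨39, 42, 32, 32⟩], [⟨42, 42, 26, 32⟩], [⟨42, 42, 32, 38⟩]]]

/-- The three hubs. -/
def Hl : Fin 3 → List Box := ![
  [⟨42, 42, 6, 10⟩, ⟨39, 42, 8, 8⟩, ⟨39, 39, 0, 8⟩, ⟨39, 39, 32, 48⟩],
  [⟨42, 42, 22, 26⟩, ⟨42, 45, 24, 24⟩, ⟨45, 45, 0, 24⟩],
  [⟨42, 42, 38, 42⟩, ⟨42, 48, 40, 40⟩, ⟨48, 48, 40, 48⟩, ⟨0, 36, 0, 0⟩, ⟨36, 36, 0, 16⟩]]

theorem Rl_inK : ∀ i j, inK (Rl i j) := by decide

theorem Hl_inK : ∀ j, inK (Hl j) := by decide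

theorem Rl_one : ∀ i j, ∃ B, Rl i j = [B] := by
  intro i j
  fin_cases i <;> fin_cases j <;> exact ⟨_, rfl⟩

theorem Rl_Rl : ∀ i j i' j', i ≠ i' → sepL (Rl i j) (Rl i' j') := by decide

theorem Rl_Hl : ∀ i j j', j ≠ j' → sepL (Rl i j) (Hl j') := by decide

theorem Hl_Hl : ∀ j j', j ≠ j' → sepL (Hl j) (Hl j') := by decide

theorem mem_TB {l : List Box} {B : Box} (hB : B ∈ l) {q : T2} (hq : q ∈ B.to) : q ∈ TB l :=
  ⟨B, hB, hq⟩

theorem Hl_pre (j : Fin 3) : IsPreconnected (TB (Hl j)) := by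
  fin_cases j
  · show IsPreconnected (TB [⟨42, 42, 6, 10⟩, ⟨39, 42, 8, 8⟩, ⟨39, 39, 0, 8⟩, ⟨39, 39, 32, 48⟩])
    have p4 : IsPreconnected (TB [⟨39, 39, 32, 48⟩]) := by
      rw [TB_one]; exact Box.preconnected_to _
    have p3 : IsPreconnected (TB [⟨39, 39, 0, 8⟩, ⟨39, 39, 32, 48⟩]) := by
      rw [TB_cons]
      exact IsPreconnected.union (gp 39 0) (Box.gp_mem (by decide))
        (mem_TB (List.mem_singleton.2 rfl) (by rw [← gp_wrap 39 0 0 1]; exact Box.gp_mem (by decide)))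
        (Box.preconnected_to _) p4
    have p2 : IsPreconnected (TB [⟨39, 42, 8, 8⟩, ⟨39, 39, 0, 8⟩, ⟨39, 39, 32, 48⟩]) := by
      rw [TB_cons]
      exact IsPreconnected.union (gp 39 8) (Box.gp_mem (by decide))
        (mem_TB (List.mem_cons_self) (Box.gp_mem (by decide))) (Box.preconnected_to _) p3
    rw [TB_cons]
    exact IsPreconnected.union (gp 42 8) (Box.gp_mem (by decide))
        (mem_TB (List.mem_cons_self) (Box.gp_mem (by decide))) (Box.preconnected_to _) p2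
  · show IsPreconnected (TB [⟨42, 42, 22, 26⟩, ⟨42, 45, 24, 24⟩, ⟨45, 45, 0, 24⟩])
    have p3 : IsPreconnected (TB [⟨45, 45, 0, 24⟩]) := by
      rw [TB_one]; exact Box.preconnected_to _
    have p2 : IsPreconnected (TB [⟨42, 45, 24, 24⟩, ⟨45, 45, 0, 24⟩]) := by
      rw [TB_cons]
      exact IsPreconnected.union (gp 45 24) (Box.gp_mem (by decide))
        (mem_TB (List.mem_cons_self) (Box.gp_mem (by decide))) (Box.preconnected_to _) p3
    rw [TB_cons]
    exact IsPreconnected.union (gp 42 24) (Box.gp_mem (by decide))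
        (mem_TB (List.mem_cons_self) (Box.gp_mem (by decide))) (Box.preconnected_to _) p2
  · show IsPreconnected (TB [⟨42, 42, 38, 42⟩, ⟨42, 48, 40, 40⟩, ⟨48, 48, 40, 48⟩, ⟨0, 36, 0, 0⟩,
      ⟨36, 36, 0, 16⟩])
    have p5 : IsPreconnected (TB [⟨36, 36, 0, 16⟩]) := by
      rw [TB_one]; exact Box.preconnected_to _
    have p4 : IsPreconnected (TB [⟨0, 36, 0, 0⟩, ⟨36, 36, 0, 16⟩]) := by
      rw [TB_cons]
      exact IsPreconnected.union (gp 36 0) (Box.gp_mem (by decide))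
        (mem_TB (List.mem_cons_self) (Box.gp_mem (by decide))) (Box.preconnected_to _) p5
    have p3 : IsPreconnected (TB [⟨48, 48, 40, 48⟩, ⟨0, 36, 0, 0⟩, ⟨36, 36, 0, 16⟩]) := by
      rw [TB_cons]
      exact IsPreconnected.union (gp 0 0) (by rw [← gp_wrap 0 0 1 1]; exact Box.gp_mem (by decide))
        (mem_TB (List.mem_cons_self) (Box.gp_mem (by decide))) (Box.preconnected_to _) p4
    have p2 : IsPreconnected (TB [⟨42, 48, 40, 40⟩, ⟨48, 48, 40, 48⟩, ⟨0, 36, 0, 0⟩,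
        ⟨36, 36, 0, 16⟩]) := by
      rw [TB_cons]
      exact IsPreconnected.union (gp 48 40) (Box.gp_mem (by decide))
        (mem_TB (List.mem_cons_self) (Box.gp_mem (by decide))) (Box.preconnected_to _) p3
    rw [TB_cons]
    exact IsPreconnected.union (gp 42 40) (Box.gp_mem (by decide))
        (mem_TB (List.mem_cons_self) (Box.gp_mem (by decide))) (Box.preconnected_to _) p2

/-- The common points of the arms and the hubs. -/
def mt : Fin 3 → Fin 3 → ℤ × ℤ := ![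
  ![(42, 6), (45, 0), (42, 42)], ![(42, 10), (42, 22), (36, 16)], ![(39, 32), (42, 26), (42, 38)]]

/-- A grid point lies in a list of boxes. -/
def inL (l : List Box) (x : ℤ × ℤ) : Prop :=
  ∃ B ∈ l, (B.a ≤ x.1 ∧ x.1 ≤ B.b) ∧ (B.a' ≤ x.2 ∧ x.2 ≤ B.b')

instance (l : List Box) (x : ℤ × ℤ) : Decidable (inL l x) := by unfold inL; infer_instance

theorem inL_spec {l : List Box} {x : ℤ × ℤ} (h : inL l x) : gp x.1 x.2 ∈ TB l := by
  obtain ⟨B, hB, hx⟩ := h
  exact ⟨B, hB, Box.gp_mem hx⟩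

theorem mt_R : ∀ i j, inL (Rl i j) (mt i j) := by decide

theorem mt_H : ∀ i j, inL (Hl j) (mt i j) := by decide

/-- The base points of the arms. -/
def bt : Fin 3 → ℤ × ℤ := ![(42, 0), (42, 16), (42, 32)]

theorem bt_R (i j : Fin 3) : gp (bt i).1 (bt i).2 ∈ TB (Rl i j) := by
  by_cases h : inL (Rl i j) (bt i)
  · exact inL_spec h
  · have h' : i = 0 ∧ j = 2 := by revert i j; decide
    obtain ⟨rfl, rfl⟩ := h'
    have : inL (Rl 0 2) ((bt 0).1 + 48 * 0, (bt 0).2 + 48 * 1) := by decide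
    rw [← gp_wrap _ _ 0 1]
    exact inL_spec this

/-- The compactum is not planar. -/
theorem not_planar : ¬ IsPlanar K := by
  rintro ⟨A, ⟨f⟩⟩
  have : CompactSpace K := isCompact_iff_compactSpace.1 isCompact_K
  refine Pool.Agent.Helper300.Disc.no_config (T := K) (X := fun q => (f q).1.1)
    (Y := fun q => (f q).1.2) (by fun_prop) (by fun_prop)
    (fun s t h1 h2 => f.injective (Subtype.ext (Prod.ext h1 h2)))
    (fun i j => KB (Rl i j)) (fun j => KB (Hl j))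
    (fun i => ⟨gp (bt i).1 (bt i).2, inK_spec (Rl_inK i 0) (bt_R i 0)⟩)
    (fun i j => isClosed_KB _) ?_ (fun j => isClosed_KB _)
    (fun j => KB_pre (Hl_inK j) (Hl_pre j)) (fun i j => bt_R i j) ?_
    (fun i j i' j' h => sepL_spec (Rl_Rl i j i' j' h) (Rl_inK _ _) (Rl_inK _ _))
    (fun i j j' h => sepL_spec (Rl_Hl i j j' h) (Rl_inK _ _) (Hl_inK _))
    (fun j j' h => sepL_spec (Hl_Hl j j' h) (Hl_inK _) (Hl_inK _))
  · intro i j
    obtain ⟨B, hB⟩ := Rl_one i j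
    refine KB_pre (Rl_inK i j) ?_
    rw [hB, TB_one]
    exact B.preconnected_to
  · intro i j
    exact ⟨⟨_, inK_spec (Rl_inK i j) (inL_spec (mt_R i j))⟩, inL_spec (mt_R i j),
      inL_spec (mt_H i j)⟩

end Pool.Agent.H740.Surf
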