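import Pool.Agent.H740.Surf.NoQuad

set_option autoImplicit false

open Set Topology Filter

namespace Pool.Agent.H740.Surf

/-- A slanted version of membership: a point of depth `e`. -/
theorem mem_K_of {u v e : ℝ} (he0 : 0 < e) (he : e ∈ Zs) (hu0 : e ≤ u) (hu1 : u ≤ 1 / 2 - e)
    (hv0 : e ≤ v) (hv1 : v ≤ 1 - e) (hc : u ≤ 1 / 4 ∨ v ≤ 1 / 4 ∨ 3 / 4 ≤ v)
    (hd : u = e ∨ u = 1 / 2 - e ∨ v = e ∨ v = 1 - e) : c (u, v) ∈ K := by
  refine ⟨(u, v), ⟨⟨by simp only; linarith, by simp only; linarith, by simp only; linarith,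
    by simp only; linarith⟩, Or.inr (Or.inr ⟨by simp only; linarith, hc, ?_⟩)⟩, rfl⟩
  simp only
  have : min (min u (1 / 2 - u)) (min v (1 - v)) = e := by
    apply le_antisymm
    · rcases hd with hd | hd | hd | hd
      · exact (min_le_left _ _).trans ((min_le_left _ _).trans hd.le)
      · exact (min_le_left _ _).trans ((min_le_right _ _).trans (by linarith))
      · exact (min_le_right _ _).trans ((min_le_left _ _).trans hd.le)
      · exact (min_le_right _ _).trans ((min_le_right _ _).trans (by linarith))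
    · exact le_min (le_min hu0 (by linarith)) (le_min hv0 (by linarith))
  rw [this]
  exact he

/-- The part of an arc of depth `e` up to the height `h` on the legs. -/
def W (e h : ℝ) : Set (ℝ × ℝ) :=
  ((({1 / 2 - e} ×ˢ Icc e h) ∪ (Icc e (1 / 2 - e) ×ˢ {e})) ∪ ({e} ×ˢ Icc e (1 - e))) ∪
    ((Icc e (1 / 2 - e) ×ˢ {1 - e}) ∪ ({1 / 2 - e} ×ˢ Icc (1 - h) (1 - e)))

theorem W_preconnected {e h : ℝ} (he0 : 0 < e) (he : e ≤ 1 / 8) (hh : e ≤ h) :
    IsPreconnected (W e h) := by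
  have i1 : IsPreconnected (({1 / 2 - e} : Set ℝ) ×ˢ Icc e h) :=
    isPreconnected_singleton.prod isPreconnected_Icc
  have i2 : IsPreconnected (Icc e (1 / 2 - e) ×ˢ ({e} : Set ℝ)) :=
    isPreconnected_Icc.prod isPreconnected_singleton
  have i3 : IsPreconnected (({e} : Set ℝ) ×ˢ Icc e (1 - e)) :=
    isPreconnected_singleton.prod isPreconnected_Icc
  have i4 : IsPreconnected (Icc e (1 / 2 - e) ×ˢ ({1 - e} : Set ℝ)) :=
    isPreconnected_Icc.prod isPreconnected_singleton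
  have i5 : IsPreconnected (({1 / 2 - e} : Set ℝ) ×ˢ Icc (1 - h) (1 - e)) :=
    isPreconnected_singleton.prod isPreconnected_Icc
  have j1 : IsPreconnected ((({1 / 2 - e} : Set ℝ) ×ˢ Icc e h) ∪
      (Icc e (1 / 2 - e) ×ˢ ({e} : Set ℝ))) :=
    IsPreconnected.union ((1 / 2 - e, e) : ℝ × ℝ) ⟨rfl, left_mem_Icc.2 hh⟩
      ⟨right_mem_Icc.2 (by linarith), rfl⟩ i1 i2
  have j2 : IsPreconnected (((({1 / 2 - e} : Set ℝ) ×ˢ Icc e h) ∪
      (Icc e (1 / 2 - e) ×ˢ ({e} : Set ℝ))) ∪ (({e} : Set ℝ) ×ˢ Icc e (1 - e))) :=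
    IsPreconnected.union ((e, e) : ℝ × ℝ) (Or.inr ⟨left_mem_Icc.2 (by linarith), rfl⟩)
      ⟨rfl, left_mem_Icc.2 (by linarith)⟩ j1 i3
  have j3 : IsPreconnected ((Icc e (1 / 2 - e) ×ˢ ({1 - e} : Set ℝ)) ∪
      (({1 / 2 - e} : Set ℝ) ×ˢ Icc (1 - h) (1 - e))) :=
    IsPreconnected.union ((1 / 2 - e, 1 - e) : ℝ × ℝ) ⟨right_mem_Icc.2 (by linarith), rfl⟩
      ⟨rfl, right_mem_Icc.2 (by linarith)⟩ i4 i5
  exact IsPreconnected.union ((e, 1 - e) : ℝ × ℝ) (Or.inr ⟨rfl, right_mem_Icc.2 (by linarith)⟩)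
    (Or.inl ⟨left_mem_Icc.2 (by linarith), rfl⟩) j2 j3

theorem W_sub {e h : ℝ} (he0 : 0 < e) (he : e ≤ 1 / 8) (hZ : e ∈ Zs) (hh4 : h ≤ 1 / 4)
    {p : ℝ × ℝ} (hp : p ∈ W e h) : c p ∈ K := by
  obtain ⟨u, v⟩ := p
  rcases hp with ((⟨h1, h2, h3⟩ | ⟨⟨h1, h2⟩, h3⟩) | ⟨h1, h2, h3⟩) | (⟨⟨h1, h2⟩, h3⟩ | ⟨h1, h2, h3⟩)
  · simp only [mem_singleton_iff] at h1 h2 h3
    exact mem_K_of he0 hZ (by linarith) (by linarith) (by linarith) (by linarith)
      (by right; left; linarith) (by right; left; exact h1)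
  · simp only [mem_singleton_iff] at h1 h2 h3
    exact mem_K_of he0 hZ (by linarith) (by linarith) (by linarith) (by linarith)
      (by right; left; linarith) (by right; right; left; exact h3)
  · simp only [mem_singleton_iff] at h1 h2 h3
    exact mem_K_of he0 hZ (by linarith) (by linarith) (by linarith) (by linarith)
      (by left; linarith) (by left; exact h1)
  · simp only [mem_singleton_iff] at h1 h2 h3
    exact mem_K_of he0 hZ (by linarith) (by linarith) (by linarith) (by linarith)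
      (by right; right; linarith) (by right; right; right; exact h3)
  · simp only [mem_singleton_iff] at h1 h2 h3
    exact mem_K_of he0 hZ (by linarith) (by linarith) (by linarith) (by linarith)
      (by right; right; linarith) (by right; left; exact h1)

theorem W_far {e r : ℝ} (he0 : 0 < e) (he : e ≤ 1 / 8) (hr0 : 0 < r) (hr : r ≤ 1 / 8)
    {p : ℝ × ℝ} (hp : p ∈ W e (1 / 4 - r)) : ¬ dist (c p) X0 < r ∧ ¬ dist (c p) Y0 < r := by
  obtain ⟨u, v⟩ := p
  have hb : 0 ≤ u ∧ u ≤ 1 ∧ 0 ≤ v ∧ v ≤ 1 := by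
    rcases hp with ((⟨h1, h2, h3⟩ | ⟨⟨h1, h2⟩, h3⟩) | ⟨h1, h2, h3⟩) |
      (⟨⟨h1, h2⟩, h3⟩ | ⟨h1, h2, h3⟩) <;> simp only [mem_singleton_iff] at h1 h2 h3 <;>
      exact ⟨by linarith, by linarith, by linarith, by linarith⟩
  obtain ⟨b1, b2, b3, b4⟩ := hb
  constructor
  · intro hd
    obtain ⟨k1, k2⟩ := near_X0 (by linarith) b1 b2 b3 b4 hd
    rw [abs_lt] at k1 k2
    rcases hp with ((⟨h1, h2, h3⟩ | ⟨⟨h1, h2⟩, h3⟩) | ⟨h1, h2, h3⟩) |
      (⟨⟨h1, h2⟩, h3⟩ | ⟨h1, h2, h3⟩) <;> simp only [mem_singleton_iff] at h1 h2 h3 <;> linarith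
  · intro hd
    obtain ⟨k1, k2⟩ := near_Y0 (by linarith) b1 b2 b3 b4 hd
    rw [abs_lt] at k1 k2
    rcases hp with ((⟨h1, h2, h3⟩ | ⟨⟨h1, h2⟩, h3⟩) | ⟨h1, h2, h3⟩) |
      (⟨⟨h1, h2⟩, h3⟩ | ⟨h1, h2, h3⟩) <;> simp only [mem_singleton_iff] at h1 h2 h3 <;> linarith

/-- The values `1 / (m + 8)`. -/
theorem val_mem (m : ℕ) : 1 / ((m : ℝ) + 8) ∈ Zs := Or.inr ⟨m, rfl⟩

theorem val_pos (m : ℕ) : (0 : ℝ) < 1 / ((m : ℝ) + 8) := by positivity

theorem val_le (m : ℕ) : 1 / ((m : ℝ) + 8) ≤ 1 / 8 := by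
  apply one_div_le_one_div_of_le (by norm_num)
  have : (0 : ℝ) ≤ m := Nat.cast_nonneg m
  linarith

theorem val_lt {m n : ℕ} (h : n < m) : 1 / ((m : ℝ) + 8) < 1 / ((n : ℝ) + 8) := by
  apply one_div_lt_one_div_of_lt (by positivity)
  have : (n : ℝ) < m := by exact_mod_cast h
  linarith

theorem X0_mem : X0 ∈ K := by
  refine ⟨(1 / 2, 1 / 4), ⟨⟨by norm_num, by norm_num, by norm_num, by norm_num⟩,
    Or.inr (Or.inr ⟨by norm_num, Or.inr (Or.inl (by norm_num)), ?_⟩)⟩, rfl⟩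
  simp only
  have : min (min (1 / 2 : ℝ) (1 / 2 - 1 / 2)) (min (1 / 4 : ℝ) (1 - 1 / 4)) = 0 := by norm_num
  rw [this]
  exact mem_insert _ _

theorem Y0_mem : Y0 ∈ K := by
  refine ⟨(1 / 2, 3 / 4), ⟨⟨by norm_num, by norm_num, by norm_num, by norm_num⟩,
    Or.inr (Or.inr ⟨by norm_num, Or.inr (Or.inr (by norm_num)), ?_⟩)⟩, rfl⟩
  simp only
  have : min (min (1 / 2 : ℝ) (1 / 2 - 1 / 2)) (min (3 / 4 : ℝ) (1 - 3 / 4)) = 0 := by norm_num
  rw [this]
  exact mem_insert _ _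

noncomputable def x0 : K := ⟨X0, X0_mem⟩
noncomputable def y0 : K := ⟨Y0, Y0_mem⟩

/-- The neighbourhoods. -/
noncomputable def Un (z : K) (n : ℕ) : Set K := Metric.ball z (1 / ((n : ℝ) + 8))

theorem Un_anti (z : K) : Antitone (Un z) := by
  intro m n h
  rcases h.eq_or_lt with rfl | h
  · exact le_rfl
  · exact Metric.ball_subset_ball (val_lt h).le

theorem Un_open (z : K) (n : ℕ) : IsOpen (Un z n) := Metric.isOpen_ball

theorem Un_basis (z : K) : (𝓝 z).HasBasis (fun _ : ℕ => True) (Un z) := by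
  rw [hasBasis_iff]
  intro t
  constructor
  · intro ht
    obtain ⟨e, he, hs⟩ := Metric.mem_nhds_iff.1 ht
    obtain ⟨n, hn⟩ := exists_nat_gt (1 / e)
    refine ⟨n, trivial, (Metric.ball_subset_ball ?_).trans hs⟩
    rw [div_lt_iff₀ he] at hn
    rw [div_le_iff₀ (by positivity)]
    nlinarith
  · rintro ⟨n, -, hn⟩
    exact mem_of_superset (Metric.ball_mem_nhds _ (val_pos n)) hn

theorem Un_inter (z : K) : (⋂ n, Un z n) = {z} := by
  ext p
  simp only [mem_iInter, mem_singleton_iff]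
  constructor
  · intro h
    by_contra hne
    have hd : 0 < dist p z := dist_pos.2 hne
    obtain ⟨n, hn⟩ := exists_nat_gt (1 / dist p z)
    have h1 := h n
    rw [Un, Metric.mem_ball, lt_div_iff₀ (by positivity)] at h1
    rw [div_lt_iff₀ hd] at hn
    nlinarith
  · rintro rfl n
    exact Metric.mem_ball_self (val_pos n)

/-- The point of the frontier of the neighbourhood of `X0`. -/
theorem frontier_X {e r : ℝ} (he0 : 0 < e) (hZ : e ∈ Zs) (hr : r ≤ 1 / 8)
    (her : e < r) (hm : c (1 / 2 - e, 1 / 4 - r) ∈ K) :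
    (⟨c (1 / 2 - e, 1 / 4 - r), hm⟩ : K) ∈ frontier (Metric.ball x0 r) := by
  rw [Metric.isOpen_ball.frontier_eq]
  constructor
  · have hmem : ∀ t : Icc (1 / 4 - r) (1 / 4), c (1 / 2 - e, (t : ℝ)) ∈ K := fun t =>
      mem_K_of he0 hZ (by linarith) (by linarith) (by linarith [t.2.1]) (by linarith [t.2.2])
        (by right; left; exact t.2.2) (by right; left; rfl)
    set g : Icc (1 / 4 - r) (1 / 4) → K := fun t => ⟨c (1 / 2 - e, (t : ℝ)), hmem t⟩ with hg
    have hgc : Continuous g := by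
      refine Continuous.subtype_mk (continuous_c.comp ?_) _
      fun_prop
    have hr' : 1 / 4 - r ≤ 1 / 4 := by linarith
    set t0 : Icc (1 / 4 - r) (1 / 4) := ⟨1 / 4 - r, left_mem_Icc.2 hr'⟩ with ht0
    have hcl : t0 ∈ closure {t : Icc (1 / 4 - r) (1 / 4) | (1 / 4 - r : ℝ) < t} := by
      rw [closure_subtype]
      have : ((↑) : Icc (1 / 4 - r) (1 / 4) → ℝ) '' {t | (1 / 4 - r : ℝ) < t} =
          Ioc (1 / 4 - r) (1 / 4) := by
        ext s
        constructor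
        · rintro ⟨t, ht, rfl⟩
          exact ⟨ht, t.2.2⟩
        · rintro ⟨h1, h2⟩
          exact ⟨⟨s, h1.le, h2⟩, h1, rfl⟩
      rw [this, closure_Ioc (by linarith : (1 / 4 - r : ℝ) ≠ 1 / 4)]
      exact left_mem_Icc.2 hr'
    have h2 := map_mem_closure hgc hcl (t := Metric.ball x0 r) (fun t ht => by
      have ht' : (1 / 4 - r : ℝ) < t := ht
      have ht2 := t.2.2
      rw [Metric.mem_ball, Subtype.dist_eq]
      show dist (c (1 / 2 - e, (t : ℝ))) X0 < r
      rw [Prod.dist_eq, max_lt_iff]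
      simp only [c, X0, dist_eq_norm]
      rw [norm_sub_half (by linarith) (by linarith), norm_sub_quarter (by linarith) (by linarith)]
      exact ⟨abs_lt.2 ⟨by linarith, by linarith⟩, abs_lt.2 ⟨by linarith, by linarith⟩⟩)
    exact h2
  · intro hmem
    rw [Metric.mem_ball, Subtype.dist_eq] at hmem
    have h1 : dist (c (1 / 2 - e, 1 / 4 - r)) X0 < r := hmem
    obtain ⟨-, h2⟩ := near_X0 (by linarith) (by linarith) (by linarith) (by linarith)
      (by linarith) h1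
    rw [abs_lt] at h2
    linarith

theorem frontier_Y {e r : ℝ} (he0 : 0 < e) (hZ : e ∈ Zs) (hr : r ≤ 1 / 8)
    (her : e < r) (hm : c (1 / 2 - e, 1 - (1 / 4 - r)) ∈ K) :
    (⟨c (1 / 2 - e, 1 - (1 / 4 - r)), hm⟩ : K) ∈ frontier (Metric.ball y0 r) := by
  rw [Metric.isOpen_ball.frontier_eq]
  constructor
  · have hmem : ∀ t : Icc (3 / 4) (3 / 4 + r), c (1 / 2 - e, (t : ℝ)) ∈ K := fun t =>
      mem_K_of he0 hZ (by linarith) (by linarith) (by linarith [t.2.1]) (by linarith [t.2.2])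
        (by right; right; exact t.2.1) (by right; left; rfl)
    set g : Icc (3 / 4) (3 / 4 + r) → K := fun t => ⟨c (1 / 2 - e, (t : ℝ)), hmem t⟩ with hg
    have hgc : Continuous g := by
      refine Continuous.subtype_mk (continuous_c.comp ?_) _
      fun_prop
    have hr' : 3 / 4 ≤ 3 / 4 + r := by linarith
    set t0 : Icc (3 / 4) (3 / 4 + r) := ⟨1 - (1 / 4 - r), by constructor <;> linarith⟩ with ht0
    have hcl : t0 ∈ closure {t : Icc (3 / 4) (3 / 4 + r) | (t : ℝ) < 3 / 4 + r} := by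
      rw [closure_subtype]
      have : ((↑) : Icc (3 / 4) (3 / 4 + r) → ℝ) '' {t | (t : ℝ) < 3 / 4 + r} =
          Ico (3 / 4) (3 / 4 + r) := by
        ext s
        constructor
        · rintro ⟨t, ht, rfl⟩
          exact ⟨t.2.1, ht⟩
        · rintro ⟨h1, h2⟩
          exact ⟨⟨s, h1, h2.le⟩, h2, rfl⟩
      rw [this, closure_Ico (by linarith : (3 / 4 : ℝ) ≠ 3 / 4 + r)]
      constructor <;> simp only [ht0] <;> linarith
    have h2 := map_mem_closure hgc hcl (t := Metric.ball y0 r) (fun t ht => by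
      have ht' : (t : ℝ) < 3 / 4 + r := ht
      have ht2 := t.2.1
      rw [Metric.mem_ball, Subtype.dist_eq]
      show dist (c (1 / 2 - e, (t : ℝ))) Y0 < r
      rw [Prod.dist_eq, max_lt_iff]
      simp only [c, Y0, dist_eq_norm]
      rw [norm_sub_half (by linarith) (by linarith), norm_sub_3quarter (by linarith) (by linarith)]
      exact ⟨abs_lt.2 ⟨by linarith, by linarith⟩, abs_lt.2 ⟨by linarith, by linarith⟩⟩)
    exact h2
  · intro hmem
    rw [Metric.mem_ball, Subtype.dist_eq] at hmem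
    have h1 : dist (c (1 / 2 - e, 1 - (1 / 4 - r))) Y0 < r := hmem
    obtain ⟨-, h2⟩ := near_Y0 (by linarith) (by linarith) (by linarith) (by linarith)
      (by linarith) h1
    rw [abs_lt] at h2
    linarith

theorem crossing_infinite (n : ℕ) : (crossing (Un x0 n) (Un y0 n)).Infinite := by
  have hmid : ∀ m : ℕ, c (1 / ((m : ℝ) + 8), 1 / 2) ∈ K := fun m => by
    have h1 := val_pos m
    have h2 := val_le m
    exact mem_K_of h1 (val_mem m) le_rfl (by linarith) (by linarith) (by linarith)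
      (by left; linarith) (by left; rfl)
  set pt : ℕ → K := fun m => ⟨_, hmid m⟩ with hpt
  set r : ℝ := 1 / ((n : ℝ) + 8) with hr
  set D : ℕ → Set K := fun m => connectedComponentIn (Un x0 n ∪ Un y0 n)ᶜ (pt m) with hD
  have hW : ∀ m, n < m → ∀ p ∈ W (1 / ((m : ℝ) + 8)) (1 / 4 - r), ∃ hp : c p ∈ K,
      (⟨c p, hp⟩ : K) ∈ D m := by
    intro m hm p hp
    have h1 := val_pos m
    have h2 := val_le m
    have h3 := val_lt hm
    have h4 := val_le n
    have hsub : ∀ q ∈ W (1 / ((m : ℝ) + 8)) (1 / 4 - r), c q ∈ K := fun q hq =>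
      W_sub h1 h2 (val_mem m) (by linarith) hq
    refine ⟨hsub p hp, ?_⟩
    set W' : Set K := {q | q.1 ∈ c '' W (1 / ((m : ℝ) + 8)) (1 / 4 - r)} with hW'
    have hpre : IsPreconnected W' := by
      rw [← IsInducing.subtypeVal.isPreconnected_image]
      have : ((↑) : K → T2) '' W' = c '' W (1 / ((m : ℝ) + 8)) (1 / 4 - r) := by
        ext q
        constructor
        · rintro ⟨q', hq', rfl⟩
          exact hq'
        · rintro ⟨z, hz, rfl⟩
          exact ⟨⟨c z, hsub z hz⟩, ⟨z, hz, rfl⟩, rfl⟩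
      rw [this]
      exact (W_preconnected h1 h2 (by linarith)).image _ continuous_c.continuousOn
    have hin : W' ⊆ (Un x0 n ∪ Un y0 n)ᶜ := by
      rintro q ⟨z, hz, hzq⟩ hq
      obtain ⟨k1, k2⟩ := W_far h1 h2 (val_pos n) h4 hz
      rcases hq with hq | hq
      · apply k1
        rw [hzq]
        exact hq
      · apply k2
        rw [hzq]
        exact hq
    have hptm : pt m ∈ W' := ⟨(1 / ((m : ℝ) + 8), 1 / 2),
      Or.inl (Or.inr ⟨rfl, by constructor <;> simp only <;> linarith⟩), rfl⟩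
    exact hpre.subset_connectedComponentIn hptm hin ⟨p, hp, rfl⟩
  have hptD : ∀ m, n < m → pt m ∈ D m := fun m hm => by
    have h1 := val_pos m
    have h2 := val_le m
    obtain ⟨hp, h⟩ := hW m hm (1 / ((m : ℝ) + 8), 1 / 2)
      (Or.inl (Or.inr ⟨rfl, by constructor <;> simp only <;> linarith⟩))
    exact h
  refine infinite_of_injOn_mapsTo (f := D) (s := Ioi n) ?_ ?_ (Ioi_infinite n)
  · intro m hm m' hm' he
    have h1 : pt m' ∈ D m := by
      rw [he]
      exact hptD m' hm'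
    have h2 : F (pt m).1 = F (pt m').1 :=
      const_of_countable (s := D m) isPreconnected_connectedComponentIn (f := fun q : K => F q.1)
        (continuous_F.comp continuous_subtype_val).continuousOn countable_Zs
        (fun q _ => F_mem q.2) (hptD m hm) h1
    have hF : ∀ k : ℕ, F (pt k).1 = 1 / ((k : ℝ) + 8) := fun k => by
      have k1 := val_pos k
      have k2 := val_le k
      show F (c (1 / ((k : ℝ) + 8), 1 / 2)) = _
      rw [F_c k1.le (by linarith) (by norm_num) (by norm_num),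
        min_eq_left (by linarith : 1 / ((k : ℝ) + 8) ≤ 1 / 2 - 1 / ((k : ℝ) + 8)),
        max_eq_right k1.le, min_eq_left (le_min (by linarith) (by linarith))]
    rw [hF, hF] at h2
    have h3 : ((m : ℝ) + 8) = (m' : ℝ) + 8 := by
      have := congrArg (fun z => 1 / z) h2
      simpa using this
    have h4 : (m : ℝ) = m' := by linarith
    exact_mod_cast h4
  · intro m hm
    have hm' : n < m := hm
    have h1 := val_pos m
    have h2 := val_le m
    have h3 := val_lt hm'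
    have h4 := val_le n
    refine ⟨⟨pt m, ?_, rfl⟩, ?_, ?_⟩
    · exact connectedComponentIn_subset _ _ (hptD m hm')
    · obtain ⟨hp, h⟩ := hW m hm' (1 / 2 - 1 / ((m : ℝ) + 8), 1 / 4 - r)
        (Or.inl (Or.inl (Or.inl ⟨rfl, right_mem_Icc.2 (by linarith)⟩)))
      exact ⟨_, h, frontier_X h1 (val_mem m) h4 h3 hp⟩
    · obtain ⟨hp, h⟩ := hW m hm' (1 / 2 - 1 / ((m : ℝ) + 8), 1 - (1 / 4 - r))
        (Or.inr (Or.inr ⟨rfl, left_mem_Icc.2 (by linarith)⟩))
      exact ⟨_, h, frontier_Y h1 (val_mem m) h4 h3 hp⟩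

theorem rtildeBase : RtildeBase K x0 y0 :=
  Or.inr ⟨Un x0, Un y0, Un_anti _, Un_anti _, Un_open _, Un_open _, Un_basis _, Un_basis _,
    Un_inter _, Un_inter _, crossing_infinite⟩

theorem rtilde : Rtilde K x0 y0 :=
  Or.inr ⟨Un x0, Un y0, Un_anti _, Un_anti _,
    fun n => (Un_open _ n).mem_nhds (Metric.mem_ball_self (val_pos n)),
    fun n => (Un_open _ n).mem_nhds (Metric.mem_ball_self (val_pos n)),
    Un_inter _, Un_inter _, crossing_infinite⟩

/-- The pair is not in the closure of `R_K`. -/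
theorem not_closure : (x0, y0) ∉ closure {p : K × K | R K p.1.1 p.2.1} := by
  intro h
  rw [Metric.mem_closure_iff] at h
  obtain ⟨⟨x, y⟩, hR, hd⟩ := h (1 / 16) (by norm_num)
  rw [Prod.dist_eq, max_lt_iff] at hd
  obtain ⟨d1, d2⟩ := hd
  have d1' : dist x.1 X0 < 1 / 16 := by rw [dist_comm]; exact d1
  have d2' : dist y.1 Y0 < 1 / 16 := by rw [dist_comm]; exact d2
  rcases hR with he | ⟨h, hh, -, -, -, C, hinj, hC, M, hM, hMc, hlim, hx, hy⟩
  · obtain ⟨u, v, ⟨⟨h1, h2, h3, h4⟩, -⟩, hx⟩ := mem_L_of x.2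
    simp only at h1 h2 h3 h4
    have he' : x.1 = y.1 := he
    rw [← he', hx] at d2'
    rw [hx] at d1'
    obtain ⟨-, k1⟩ := near_X0 (by norm_num) h1 h2 h3 h4 d1'
    obtain ⟨-, k2⟩ := near_Y0 (by norm_num) h1 h2 h3 h4 d2'
    rw [abs_lt] at k1 k2
    linarith
  · exact no_quad hh hinj (fun n => (hC n).1) hM hMc hlim hx hy d1' d2'

end Pool.Agent.H740.Surf
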