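import Pool.Agent.H740.Surf.Coord

set_option autoImplicit false

open Set Topology Filter

namespace Pool.Agent.H740.Surf

/-- The circle minus a point is an open interval. -/
theorem circle_chart (a : ℝ) : Nonempty (({(a : S1)}ᶜ : Set S1) ≃ₜ Ioo a (a + 1)) :=
  ⟨(AddCircle.openPartialHomeomorphCoe (1 : ℝ) a).toHomeomorphSourceTarget.symm⟩

theorem circle_point (q : S1) : ∃ a : ℝ, q ≠ (a : S1) := by
  by_cases h : q = ((0 : ℝ) : S1)
  · refine ⟨1 / 2, ?_⟩
    rw [h]
    intro he
    obtain ⟨n, hn⟩ := coe_eq_coe_iff.1 he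
    have h1 : (2 * n : ℝ) = -1 := by rw [← hn]; norm_num
    have h2 : (2 * n : ℤ) = -1 := by exact_mod_cast h1
    omega
  · exact ⟨0, h⟩

/-- The torus is a closed surface. -/
theorem torus_closed : IsClosedSurface T2 where
  compact := inferInstance
  connected := inferInstance
  hausdorff := inferInstance
  chart := by
    intro p
    obtain ⟨a, ha⟩ := circle_point p.1
    obtain ⟨b, hb⟩ := circle_point p.2
    obtain ⟨f⟩ := circle_chart a
    obtain ⟨g⟩ := circle_chart b
    refine ⟨{(a : S1)}ᶜ ×ˢ {(b : S1)}ᶜ, isOpen_compl_singleton.prod isOpen_compl_singleton,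
      ⟨ha, hb⟩, Ioo a (a + 1) ×ˢ Ioo b (b + 1), isOpen_Ioo.prod isOpen_Ioo, ?_⟩
    exact ⟨(Homeomorph.Set.prod _ _).trans ((f.prodCongr g).trans (Homeomorph.Set.prod _ _).symm)⟩

end Pool.Agent.H740.Surf
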